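import Mathlib
import Pool.Agent.Lib.H99.NF.Main2

/-!
# Semisimplicity of polarised pure `p`-adic representations with distinct Hodge–Tate weights of the
absolute Galois group of a number field

`F` is a number field inside an algebraic closure `Ω` of `ℚ` and `V` a continuous finite-dimensional
`p`-adic representation of `Gal(Ω/F)`, polarised of weight `w`, Hodge–Tate at all places above `p`
with the same pairwise distinct weights `h 0, …, h (n - 1)` for all embeddings, and pure of weight
`w` at the places above one prime `q ≠ p`. A stable isotropic subspace determines a family `J` of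
sets of `r` weights, one for each embedding `σ` of `F` in the algebraic closure of `ℚ_p`, which only
depends on the place defined by `σ`, has no opposite weights, and is centred at `w / 2` on average.
If there is no such family, except for those excluded by an involution `c`, then `V` is semisimple.
This holds if there is only one place above `p` and `n ≤ 5`, or `n = 6` and `w` is odd or the `+1`
eigenspace of `c` has odd dimension, and also if `[F : ℚ]` is odd and `n ≤ 3`.
-/

namespace Pool.Agent.Results.MP_8f1292_ag.DistinctWeightsNF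

open Pool.Agent.NF Pool.Agent.GSem TensorProduct Module

theorem result (p : ℕ) [Fact p.Prime] (Ω : Type*) [Field Ω] [CharZero Ω] [IsAlgClosure ℚ Ω]
    (F : IntermediateField ℚ Ω) [NumberField F]
    (V : Type*) [AddCommGroup V] [Module ℚ_[p] V] [FiniteDimensional ℚ_[p] V]
    (ρ : Representation ℚ_[p] F.fixingSubgroup V) (hρ : IsContRep ρ)
    (w : ℤ) (B : V →ₗ[ℚ_[p]] V →ₗ[ℚ_[p]] ℚ_[p]) (hB : IsPol ρ w B)
    (n : ℕ) (h : Fin n → ℤ) (hinj : Function.Injective h)
    (hHT : ∀ ι : Ω →+* PadicAlgCl p, ∃ e : Basis (Fin n) ℂ_[p] (ℂ_[p] ⊗[ℚ_[p]] V),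
      IsHTBasisAt ι ρ h e)
    (hpure : IsPureAbove ρ w) (c : F.fixingSubgroup) (hc : c * c = 1) :
    ((∀ (r : ℕ) (J : (F →+* PadicAlgCl p) → Finset (Fin n)), 0 < r → 2 * r ≤ n →
      (∀ σ, (J σ).card = r) →
      (∀ (σ σ' : F →+* PadicAlgCl p) (τ : Gal(PadicAlgCl p/ℚ_[p])), (∀ y, σ' y = τ (σ y)) →
        J σ' = J σ) →
      (∀ σ, ∀ i ∈ J σ, ∀ j ∈ J σ, h i + h j ≠ w) →
      ∑ σ, ∑ j ∈ J σ, (2 * h j - w) = 0 →
      Even w ∧ finrank ℚ_[p] (LinearMap.ker (ρ c - LinearMap.id)) / 2 +
        finrank ℚ_[p] (LinearMap.ker (ρ c + LinearMap.id)) / 2 < r) → IsSemisimpleRep ρ) ∧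
    ((∀ σ σ' : F →+* PadicAlgCl p, ∃ τ : Gal(PadicAlgCl p/ℚ_[p]), ∀ y, σ' y = τ (σ y)) →
      (n ≤ 5 ∨ n = 6 ∧
        (Odd w ∨ Odd (finrank ℚ_[p] (LinearMap.ker (ρ c - LinearMap.id))))) →
      IsSemisimpleRep ρ) ∧
    (Odd (finrank ℚ F) → n ≤ 3 → IsSemisimpleRep ρ) := by
  refine ⟨fun hcond => ?_, fun hplace hn => ?_, fun hodd hn => ?_⟩
  · refine semisimple_criterionF F ρ hρ h hinj hHT w B hB hpure c hc ?_
    intro r J hr h2r hJ hinv
    refine hcond r J hr h2r hJ fun σ σ' τ hτ => ?_
    rw [← hinv σ τ]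
    congr 1
    exact RingHom.ext hτ
  · exact semisimple_of_one_place F ρ hρ h hinj hHT w B hB hpure c hc hplace hn
  · exact semisimple_of_odd_degree F ρ hρ h hinj hHT w B hB hpure hodd hn

end Pool.Agent.Results.MP_8f1292_ag.DistinctWeightsNF
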