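import Mathlib
import Pool.Agent.Lib.H99.NF.Mono3

/-!
# Semisimplicity of pure Hodge–Tate representations of the absolute Galois group of a number field
from the monodromy at one place

`F` is a number field inside an algebraic closure `Ω` of `ℚ`, `V` a continuous finite-dimensional
`p`-adic representation of `Gal(Ω/F)`, polarised of weight `w`, Hodge–Tate at all places above `p`
and pure of weight `w` at the places above one prime `q ≠ p`. Let `φ` be a Frobenius element at a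
prime `l ≠ p` and `m > 0` such that all conjugates of `φ ^ m` belong to `Gal(Ω/F)`. Suppose that the
weight–monodromy condition holds for the conjugates of `φ ^ m` by elements outside `Gal(Ω/F)` (no
condition if `F = ℚ`), and let `N` be the monodromy operator for `φ ^ m` itself (that is, at one
place above `l`).

If `N ^ j` is injective on the part of weight `w + j`, and `N` has at most one Jordan block of each
size, then `V` is semisimple.
-/

namespace Pool.Agent.Results.MP_8f1292_ag.MonodromyNF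

open Pool.Agent.NF Pool.Agent.GSem TensorProduct Module Polynomial

theorem result (p : ℕ) [Fact p.Prime] (Ω : Type*) [Field Ω] [CharZero Ω] [IsAlgClosure ℚ Ω]
    (F : IntermediateField ℚ Ω) [NumberField F]
    (V : Type*) [AddCommGroup V] [Module ℚ_[p] V] [FiniteDimensional ℚ_[p] V]
    (ρ : Representation ℚ_[p] F.fixingSubgroup V) (hρ : IsContRep ρ)
    (hHT : IsHodgeTateAll ρ)
    (w : ℤ) (B : V →ₗ[ℚ_[p]] V →ₗ[ℚ_[p]] ℚ_[p]) (hB : IsPol ρ w B) (hpure : IsPureAbove ρ w)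
    (l m : ℕ) (hl : l.Prime) (hlp : l ≠ p) (hm : 0 < m) (φ : Gal(Ω/ℚ)) (hφ : IsFrobAt l φ)
    (hφF : ∀ x : Gal(Ω/ℚ), x⁻¹ * φ ^ m * x ∈ F.fixingSubgroup)
    (hWM : ∀ x : Gal(Ω/ℚ), x ∉ F.fixingSubgroup → HasWMAt ρ w (l ^ m) ⟨x⁻¹ * φ ^ m * x, hφF x⟩)
    (hφ1 : φ ^ m ∈ F.fixingSubgroup)
    (τ : F.fixingSubgroup) (N : V →ₗ[ℚ_[p]] V) (hN : IsNilpotent N) (hτ : ρ τ = nexp N)
    (hφN : ∀ x, ρ ⟨φ ^ m, hφ1⟩ (N x) = ((l ^ m : ℕ) : ℚ_[p]) • N (ρ ⟨φ ^ m, hφ1⟩ x))
    (hdist : HasDistinctBlocks (l ^ m) w (ρ ⟨φ ^ m, hφ1⟩) N) :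
    IsSemisimpleRep ρ := by
  have _ : IsAlgClosed Ω := IsAlgClosure.isAlgClosed ℚ
  have _ : Algebra.IsAlgebraic ℚ Ω := IsAlgClosure.isAlgebraic
  have _ : IsGalois ℚ Ω := IsAlgClosure.isGalois ℚ Ω
  have hopen : IsOpen (F.fixingSubgroup : Set Gal(Ω/ℚ)) :=
    IntermediateField.fixingSubgroup_isOpen F
  have hfinq : Finite (Gal(Ω/ℚ) ⧸ F.fixingSubgroup) := Subgroup.quotient_finite_of_isOpen _ hopen
  have hfi : F.fixingSubgroup.FiniteIndex := Subgroup.finiteIndex_of_finite_quotient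
  obtain ⟨P, S, hP, hS, hinj, hmult⟩ := hdist
  exact semisimple_of_monodromyF hopen ρ hρ hHT w B hB hpure hl hlp hm hφ hφF hφ1 hWM τ N hN hτ
    hφN P hP S hS hinj hmult

end Pool.Agent.Results.MP_8f1292_ag.MonodromyNF
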